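import Pool.Agent.Helper97.CB.St

/-!
# Project CB (MP_b21509_co), module CNT: counting lattice translates
-/

open MeasureTheory Set Filter
open scoped Pointwise

namespace Pool.Agent.Helper34.CB

open Helper97.CB

/-- the linear map `z ↦ z.re b + z.im w` -/
noncomputable def T (b w : ℂ) : ℂ →ₗ[ℝ] ℂ where
  toFun z := (z.re : ℂ) * b + (z.im : ℂ) * w
  map_add' z₁ z₂ := by
    simp only [Complex.add_re, Complex.add_im, Complex.ofReal_add]; ring
  map_smul' c z := by
    simp only [Complex.real_smul, Complex.mul_re, Complex.ofReal_re, Complex.ofReal_im,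
      Complex.mul_im, zero_mul, sub_zero, add_zero, Complex.ofReal_mul, RingHom.id_apply]
    ring

theorem T_apply (b w z : ℂ) : T b w z = (z.re : ℂ) * b + (z.im : ℂ) * w := rfl

theorem det_T (b w : ℂ) : LinearMap.det (T b w) = - cr w b := by
  rw [← LinearMap.det_toMatrix Complex.basisOneI]
  rw [Matrix.det_fin_two]
  simp [LinearMap.toMatrix_apply, T_apply, cr]
  ring

/-- the unit cell shifted by `i` -/
def cell (i : ℤ × ℤ) : Set ℂ := {z | ⌊z.re⌋ = i.1 ∧ ⌊z.im⌋ = i.2}

theorem volume_cell (i : ℤ × ℤ) : volume (cell i) = 1 := by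
  have h : cell i = Complex.measurableEquivRealProd ⁻¹'
      (Ico (i.1 : ℝ) (i.1 + 1) ×ˢ Ico (i.2 : ℝ) (i.2 + 1)) := by
    ext z
    simp only [cell, mem_setOf_eq, mem_preimage, mem_prod, mem_Ico,
      Complex.measurableEquivRealProd_apply, Int.floor_eq_iff]
  rw [h, Complex.volume_preserving_equiv_real_prod.measure_preimage_equiv]
  rw [Measure.volume_eq_prod, Measure.prod_prod]
  simp

theorem measurableSet_cell (i : ℤ × ℤ) : MeasurableSet (cell i) := by
  have h : cell i = Complex.measurableEquivRealProd ⁻¹'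
      (Ico (i.1 : ℝ) (i.1 + 1) ×ˢ Ico (i.2 : ℝ) (i.2 + 1)) := by
    ext z
    simp only [cell, mem_setOf_eq, mem_preimage, mem_prod, mem_Ico,
      Complex.measurableEquivRealProd_apply, Int.floor_eq_iff]
  rw [h]
  exact Complex.measurableEquivRealProd.measurable (measurableSet_Ico.prod measurableSet_Ico)

theorem hCNT : StCnt := by
  intro Q b w hQ hcr
  obtain ⟨R₁, hR₁⟩ : ∃ R : ℝ, Q ⊆ Metric.closedBall (0 : ℂ) R :=
    hQ.isBounded.subset_closedBall 0
  set R₂ := max R₁ 0 with hR₂
  have hQ2 : ∀ z ∈ Q, ‖z‖ ≤ R₂ := fun z hz => by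
    have := hR₁ hz
    rw [mem_closedBall_zero_iff] at this
    exact this.trans (le_max_left _ _)
  have hR₂0 : 0 ≤ R₂ := le_max_right _ _
  refine ⟨R₂ + ‖b‖ + ‖w‖, by positivity, fun r hr => ?_⟩
  set lam : ℤ × ℤ → ℂ := fun i => (i.1 : ℂ) * b + (i.2 : ℂ) * w with hlam
  have hdet : LinearMap.det (T b w) ≠ 0 := by
    rw [det_T]; exact neg_ne_zero.mpr hcr.ne'
  have hTinj : Function.Injective (T b w) := by
    have := (LinearMap.equivOfDetNeZero (T b w) hdet).injective
    intro x y hxy
    exact this hxy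
  have hTcont : Continuous (T b w) := (T b w).continuous_of_finiteDimensional
  have hTemb : MeasurableEmbedding (T b w) :=
    hTcont.measurableEmbedding hTinj
  have hvolU : ∀ i, volume (T b w '' cell i) = ENNReal.ofReal (cr w b) := by
    intro i
    rw [Measure.addHaar_image_linearMap, volume_cell, mul_one, det_T, abs_neg, abs_of_pos hcr]
  -- the cells of the translates which meet the disk are in a larger disk
  have hsub : ∀ i, ((fun z : ℂ => z + lam i) '' Q ∩ Metric.closedBall 0 r).Nonempty →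
      T b w '' cell i ⊆ Metric.closedBall 0 (r + (R₂ + ‖b‖ + ‖w‖)) := by
    rintro i ⟨z, ⟨q, hq, rfl⟩, hz⟩
    rintro _ ⟨p, ⟨hp1, hp2⟩, rfl⟩
    rw [mem_closedBall_zero_iff] at hz ⊢
    have h1 : ‖lam i‖ ≤ r + R₂ := by
      have : lam i = (q + lam i) - q := by ring
      rw [this]
      exact (norm_sub_le _ _).trans (add_le_add hz (hQ2 q hq))
    have h2 : T b w p = lam i + ((Int.fract p.re : ℝ) : ℂ) * b + ((Int.fract p.im : ℝ) : ℂ) * w := by
      rw [T_apply]
      have e1 : (p.re : ℂ) = (i.1 : ℂ) + ((Int.fract p.re : ℝ) : ℂ) := by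
        have : p.re = (i.1 : ℝ) + Int.fract p.re := by
          rw [← hp1]; exact (Int.floor_add_fract _).symm
        conv_lhs => rw [this]
        push_cast; rfl
      have e2 : (p.im : ℂ) = (i.2 : ℂ) + ((Int.fract p.im : ℝ) : ℂ) := by
        have : p.im = (i.2 : ℝ) + Int.fract p.im := by
          rw [← hp2]; exact (Int.floor_add_fract _).symm
        conv_lhs => rw [this]
        push_cast; rfl
      rw [e1, e2]
      simp only [hlam]
      ring
    rw [h2]
    have h3 : ‖((Int.fract p.re : ℝ) : ℂ) * b‖ ≤ ‖b‖ := by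
      rw [norm_mul, Complex.norm_real, Real.norm_eq_abs, abs_of_nonneg (Int.fract_nonneg _)]
      exact mul_le_of_le_one_left (norm_nonneg _) (Int.fract_lt_one _).le
    have h4 : ‖((Int.fract p.im : ℝ) : ℂ) * w‖ ≤ ‖w‖ := by
      rw [norm_mul, Complex.norm_real, Real.norm_eq_abs, abs_of_nonneg (Int.fract_nonneg _)]
      exact mul_le_of_le_one_left (norm_nonneg _) (Int.fract_lt_one _).le
    have h5 := norm_add_le (lam i + ((Int.fract p.re : ℝ) : ℂ) * b) (((Int.fract p.im : ℝ) : ℂ) * w)
    have h6 := norm_add_le (lam i) (((Int.fract p.re : ℝ) : ℂ) * b)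
    linarith
  have hdisj : ∀ i j, i ≠ j → Disjoint (T b w '' cell i) (T b w '' cell j) := by
    intro i j hij
    rw [Set.disjoint_image_iff hTinj]
    rw [Set.disjoint_left]
    rintro z ⟨h1, h2⟩ ⟨h3, h4⟩
    exact hij (Prod.ext (h1.symm.trans h3) (h2.symm.trans h4))
  classical
  rw [ENNReal.tsum_eq_iSup_sum]
  refine iSup_le fun F => ?_
  set F' := F.filter (fun i => ((fun z : ℂ => z + lam i) '' Q ∩ Metric.closedBall 0 r).Nonempty)
    with hF'
  have hs1 : ∑ i ∈ F, volume ((fun z : ℂ => z + lam i) '' Q ∩ Metric.closedBall 0 r) =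
      ∑ i ∈ F', volume ((fun z : ℂ => z + lam i) '' Q ∩ Metric.closedBall 0 r) := by
    symm
    refine Finset.sum_subset (Finset.filter_subset _ _) ?_
    intro i hi hi'
    rw [hF', Finset.mem_filter, not_and] at hi'
    have := hi' hi
    rw [Set.not_nonempty_iff_eq_empty] at this
    rw [this, measure_empty]
  have hs2 : ∑ i ∈ F', volume ((fun z : ℂ => z + lam i) '' Q ∩ Metric.closedBall 0 r) ≤
      (F'.card : ENNReal) * volume Q := by
    have : ∀ i ∈ F', volume ((fun z : ℂ => z + lam i) '' Q ∩ Metric.closedBall 0 r) ≤ volume Q := by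
      intro i _
      refine (measure_mono inter_subset_left).trans ?_
      rw [Set.image_add_right, measure_preimage_add_right]
    refine (Finset.sum_le_sum this).trans ?_
    rw [Finset.sum_const, nsmul_eq_mul]
  have hcard : (F'.card : ℝ) * cr w b ≤ Real.pi * (r + (R₂ + ‖b‖ + ‖w‖)) ^ 2 := by
    have h1 : (F'.card : ENNReal) * ENNReal.ofReal (cr w b) ≤
        ENNReal.ofReal (Real.pi * (r + (R₂ + ‖b‖ + ‖w‖)) ^ 2) := by
      have e1 : (F'.card : ENNReal) * ENNReal.ofReal (cr w b) =
          volume (⋃ i ∈ F', T b w '' cell i) := by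
        rw [measure_biUnion_finset]
        · rw [Finset.sum_congr rfl (fun i _ => hvolU i), Finset.sum_const, nsmul_eq_mul]
        · intro i _ j _ hij
          exact hdisj i j hij
        · intro i _
          exact hTemb.measurableSet_image.mpr (measurableSet_cell i)
      have e2 : volume (Metric.closedBall (0 : ℂ) (r + (R₂ + ‖b‖ + ‖w‖))) =
          ENNReal.ofReal (Real.pi * (r + (R₂ + ‖b‖ + ‖w‖)) ^ 2) := by
        rw [Complex.volume_closedBall]
        have h0 : 0 ≤ r + (R₂ + ‖b‖ + ‖w‖) := by positivity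
        rw [mul_comm, ENNReal.ofReal_mul Real.pi_pos.le, ENNReal.ofReal_pow h0]
        congr 1
        rw [← ENNReal.ofReal_coe_nnreal]
        rfl
      rw [e1, ← e2]
      refine measure_mono (iUnion₂_subset fun i hi => hsub i ?_)
      rw [hF', Finset.mem_filter] at hi
      exact hi.2
    rw [← ENNReal.ofReal_natCast, ← ENNReal.ofReal_mul (Nat.cast_nonneg _)] at h1
    exact (ENNReal.ofReal_le_ofReal_iff (by positivity)).mp h1
  rw [hs1]
  refine hs2.trans ?_
  gcongr
  rw [← ENNReal.ofReal_natCast]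
  refine ENNReal.ofReal_le_ofReal ?_
  rw [le_div_iff₀ hcr]
  exact hcard

end Pool.Agent.Helper34.CB
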